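import Pool.Agent.W586.GZ.Stm

set_option autoImplicit false
open Filter Topology

namespace Pool.Agent.W883.GZ

open Pool.Agent.W586.GZ

theorem main (h1 : S_PARX) (h2 : S_BAN) (h3 : S_FACT) (h4 : S_C3) :
    ¬ (∀ (X Y : Type) [NormedAddCommGroup X] [NormedSpace ℝ X] [CompleteSpace X]
      [NormedAddCommGroup Y] [NormedSpace ℝ Y] [CompleteSpace Y]
      (e : ℕ → X) (e' : ℕ → (X →L[ℝ] ℝ)) (f : ℕ → Y) (f' : ℕ → (Y →L[ℝ] ℝ)),
      (∀ i j : ℕ, e' i (e j) = if i = j then (1 : ℝ) else 0) →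
      (∀ x : X, Tendsto (fun N : ℕ => ∑ n ∈ Finset.range N, e' n x • e n) atTop (𝓝 x)) →
      (∀ i j : ℕ, f' i (f j) = if i = j then (1 : ℝ) else 0) →
      (∀ y : Y, Tendsto (fun N : ℕ => ∑ n ∈ Finset.range N, f' n y • f n) atTop (𝓝 y)) →
      (∀ T : X →L[ℝ] X, (∃ δ : ℝ, 0 < δ ∧ ∀ n : ℕ, δ ≤ |e' n (T (e n))|) →
        ∃ A B : X →L[ℝ] X, A.comp (T.comp B) = ContinuousLinearMap.id ℝ X) →
      (∀ T : Y →L[ℝ] Y, (∃ δ : ℝ, 0 < δ ∧ ∀ n : ℕ, δ ≤ |f' n (T (f n))|) →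
        ∃ A B : Y →L[ℝ] Y, A.comp (T.comp B) = ContinuousLinearMap.id ℝ Y) →
      ∀ T : (X × Y) →L[ℝ] (X × Y),
        (∃ δ : ℝ, 0 < δ ∧ ∀ n : ℕ,
            δ ≤ |e' n ((T (e n, (0 : Y))).1)| ∧ δ ≤ |f' n ((T ((0 : X), f n)).2)|) →
        ∃ A B : (X × Y) →L[ℝ] (X × Y), A.comp (T.comp B) = ContinuousLinearMap.id ℝ (X × Y)) := by
  intro H
  obtain ⟨P⟩ := h1
  obtain ⟨X, i1, i2, i3, e, e', hM⟩ := h2 (WX P) (WX_idl P)
  letI := i1
  letI := i2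
  letI := i3
  let s : (X × X) →L[ℝ] X := ContinuousLinearMap.fst ℝ X X + ContinuousLinearMap.snd ℝ X X
  let ι : X →L[ℝ] (X × X) := (ContinuousLinearMap.id ℝ X).prod (ContinuousLinearMap.id ℝ X)
  have hs : ∀ w : X × X, s w = w.1 + w.2 := fun w => rfl
  have hι : ∀ x : X, ι x = (x, x) := fun x => rfl
  have hb : ∀ n, e' n (e n) = 1 := fun n => by rw [hM.bio, if_pos rfl]
  obtain ⟨A, B, hAB⟩ := H X X e e' e e' hM.bio hM.exp hM.bio hM.exp
    (h3 P X e e' hM) (h3 P X e e' hM) (ι.comp s)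
    ⟨1, one_pos, fun n => by
      rw [ContinuousLinearMap.comp_apply, ContinuousLinearMap.comp_apply, hs, hs, hι, hι]
      simp only [add_zero, zero_add]
      rw [hb n]
      simp⟩
  have hAB' : ∀ w : X × X, A (ι (s (B w))) = w := by
    intro w
    have := congrArg (fun T : (X × X) →L[ℝ] (X × X) => T w) hAB
    exact this
  refine h4 P X e e' hM
    ((ContinuousLinearMap.fst ℝ X X).comp (A.comp ι))
    ((ContinuousLinearMap.snd ℝ X X).comp (A.comp ι))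
    (s.comp (B.comp (ContinuousLinearMap.inl ℝ X X)))
    (s.comp (B.comp (ContinuousLinearMap.inr ℝ X X))) ?_ ?_ ?_ ?_
  · intro x
    change (A (ι (s (B (x, 0))))).1 = x
    rw [hAB']
  · intro x
    change (A (ι (s (B (0, x))))).2 = x
    rw [hAB']
  · intro x
    change (A (ι (s (B (0, x))))).1 = 0
    rw [hAB']
  · intro x
    change (A (ι (s (B (x, 0))))).2 = 0
    rw [hAB']

end Pool.Agent.W883.GZ
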